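import Mathlib
import Pool.Agent.H99.NR.ROW2

set_option autoImplicit false

open MeasureTheory ProbabilityTheory
open Pool.Agent.H99.NR Pool.Agent.H99.NR.Row2

namespace Pool.Agent.H83.NR

open Classical in
theorem t_DRW : S_DRW := by
  intro K L n κ r hK hL hr
  rcases Nat.eq_zero_or_pos n with rfl | hn
  · simp
  have hn' : (0:ℝ) < n := by exact_mod_cast hn
  have hKn : 0 < K * √n := by positivity
  set F : ℕ → Fin n → ℝ := fun k j =>
    if (inLev K n k (r j) ∧ ¬ bad K L n k r) then K * √n / 2 ^ k else 0 with hF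
  have hFn : ∀ k j, 0 ≤ F k j := by
    intro k j
    simp only [hF]
    split_ifs
    · positivity
    · exact le_rfl
  have h1 : ∀ j, (if j ∈ exc K L n r then 0 else lgp (K * √n / 2 ^ κ) (r j)) ≤
      ∑ k ∈ Finset.range κ, F k j := by
    intro j
    have hnn : 0 ≤ ∑ k ∈ Finset.range κ, F k j := Finset.sum_nonneg (fun k _ => hFn k j)
    split_ifs with hj
    · exact hnn
    · unfold lgp
      split_ifs with hb
      · exact hnn
      · push Not at hb
        obtain ⟨k, hk⟩ := exists_level (hr j) (lt_of_le_of_lt (by positivity) hb)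
        have hkκ := level_lt hKn hk hb
        have hnb : ¬ bad K L n k r := by
          intro hbad
          exact hj (by
            simp only [exc, Finset.mem_filter, Finset.mem_univ, true_and]
            exact ⟨k, hk, hbad⟩)
        refine le_trans ?_ (Finset.single_le_sum (f := fun k => F k j)
          (fun k _ => hFn k j) (Finset.mem_range.2 hkκ))
        simp only [hF]
        rw [if_pos ⟨hk, hnb⟩]
        exact hk.2
  have h2 : ∀ k, ∑ j, F k j ≤ 600 * (4 ^ k + L) * (K * √n / 2 ^ k) := by
    intro k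
    simp only [hF]
    rw [← Finset.sum_filter, Finset.sum_const, nsmul_eq_mul]
    exact mul_le_mul_of_nonneg_right (good_count K L n k r hL) (by positivity)
  calc ∑ j, (if j ∈ exc K L n r then 0 else lgp (K * √n / 2 ^ κ) (r j))
      ≤ ∑ j, ∑ k ∈ Finset.range κ, F k j := Finset.sum_le_sum (fun j _ => h1 j)
    _ = ∑ k ∈ Finset.range κ, ∑ j, F k j := Finset.sum_comm
    _ ≤ ∑ k ∈ Finset.range κ, 600 * (4 ^ k + L) * (K * √n / 2 ^ k) :=
        Finset.sum_le_sum (fun k _ => h2 k)
    _ = 600 * K * √n * ∑ k ∈ Finset.range κ, ((2 : ℝ) ^ k + L / 2 ^ k) := by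
        rw [Finset.mul_sum]
        refine Finset.sum_congr rfl (fun k _ => ?_)
        have h4 : (4:ℝ) ^ k = 2 ^ k * 2 ^ k := by rw [← mul_pow]; norm_num
        rw [h4]
        have : (2:ℝ) ^ k ≠ 0 := by positivity
        field_simp
    _ ≤ 600 * K * √n * (2 ^ κ + 2 * L) :=
        mul_le_mul_of_nonneg_left (level_sum κ L hL) (by positivity)

end Pool.Agent.H83.NR
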