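import Mathlib
import Pool.Agent.H99.NR.Stm

set_option autoImplicit false

open MeasureTheory ProbabilityTheory
open Pool.Agent.H99.NR

namespace Pool.Agent.H83.NR

open Classical in
theorem ITR_step {C : ℝ} (hC : 0 < C)
    (H : ∀ (n : ℕ) (B : Fin n → Fin n → ℝ) (R : Finset (Fin n)) (M : ℝ),
      0 ≤ M → (∀ x : Fin n → SignType, (∀ j, x j ≠ 0 ↔ j ∈ R) →
        ∑ i, (∑ j, B i j * (x j : ℝ)) ^ 2 ≤ M) →
      ∃ J : Finset (Fin n), J ⊆ R ∧ 4 * J.card ≤ R.card ∧
        ∀ z : Fin n → ℝ, (∀ j, j ∉ R \ J → z j = 0) →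
          ∑ i, (∑ j, B i j * z j) ^ 2 ≤ C * (M / R.card) * ∑ j, z j ^ 2)
    {n : ℕ} {ε : ℝ} (hn : 1 ≤ n) (hε : 0 < ε)
    (B : Fin n → Fin n → ℝ) (U : Finset (Fin n)) {M : ℝ} (hM : 0 ≤ M)
    (hx : ∀ x : Fin n → SignType, (∀ j, x j ≠ 0 → j ∈ U) → ε * n / 4 ≤ sz x →
      ∑ i, (∑ j, B i j * (x j : ℝ)) ^ 2 ≤ M * sz x) (N : ℕ) :
    ∃ J : Finset (Fin n), J ⊆ U ∧ (J.card : ℝ) ≤ max (ε * n / 4) (n / 4 ^ N) ∧
      ∀ z : Fin n → ℝ, (∀ j, j ∉ U \ J → z j = 0) →
        ∑ i, (∑ j, B i j * z j) ^ 2 ≤ (N + 1) * (C * M) * ∑ j, z j ^ 2 := by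
  have hn' : (0:ℝ) < n := by exact_mod_cast (by omega : 0 < n)
  have hCM : 0 ≤ C * M := mul_nonneg hC.le hM
  induction N with
  | zero =>
    refine ⟨U, le_rfl, ?_, ?_⟩
    · refine le_max_of_le_right ?_
      simp only [pow_zero, div_one]
      exact_mod_cast (Finset.card_le_univ U).trans (by simp)
    · intro z hz
      have : ∀ j, z j = 0 := fun j => hz j (by simp)
      simp [this]
  | succ N ih =>
    obtain ⟨J, hJU, hJc, hJ⟩ := ih
    by_cases hs : (J.card : ℝ) ≤ ε * n / 4
    · refine ⟨J, hJU, le_max_of_le_left hs, fun z hz => (hJ z hz).trans ?_⟩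
      push_cast
      refine mul_le_mul_of_nonneg_right ?_ (Finset.sum_nonneg (fun j _ => sq_nonneg _))
      nlinarith
    · push Not at hs
      have hJpos : (0:ℝ) < J.card := lt_of_le_of_lt (by positivity) hs
      have hJc' : (J.card : ℝ) ≤ n / 4 ^ N := by
        rcases le_max_iff.1 hJc with h | h
        · linarith
        · exact h
      have hexact : ∀ x : Fin n → SignType, (∀ j, x j ≠ 0 ↔ j ∈ J) →
          ∑ i, (∑ j, B i j * (x j : ℝ)) ^ 2 ≤ M * J.card := by
        intro x hxJ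
        have hsz : sz x = J.card := by
          unfold sz
          congr 1
          ext j
          simp only [Finset.mem_filter, Finset.mem_univ, true_and]
          exact hxJ j
        have := hx x (fun j hj => hJU ((hxJ j).1 hj)) (by rw [hsz]; exact hs.le)
        rwa [hsz] at this
      obtain ⟨J', hJ'J, hJ'c, hJ'⟩ := H n B J (M * J.card) (by positivity) hexact
      have hdiv : M * J.card / J.card = M := by field_simp
      rw [hdiv] at hJ'
      refine ⟨J', hJ'J.trans hJU, ?_, ?_⟩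
      · refine le_max_of_le_right ?_
        have h1 : (4:ℝ) * J'.card ≤ J.card := by exact_mod_cast hJ'c
        rw [pow_succ, le_div_iff₀ (by positivity)]
        rw [le_div_iff₀ (by positivity)] at hJc'
        nlinarith [pow_pos (by norm_num : (0:ℝ) < 4) N]
      · intro z hz
        set z1 : Fin n → ℝ := fun j => if j ∈ J then 0 else z j with hz1
        set z2 : Fin n → ℝ := fun j => if j ∈ J then z j else 0 with hz2
        have hz12 : ∀ j, z j = z1 j + z2 j := by
          intro j; simp only [hz1, hz2]; split_ifs <;> simp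
        have hA := hJ z1 (by
          intro j hj
          simp only [hz1]
          split_ifs with hjJ
          · rfl
          · refine hz j (fun h => hj ?_)
            rw [Finset.mem_sdiff] at h ⊢
            exact ⟨h.1, hjJ⟩)
        have hB := hJ' z2 (by
          intro j hj
          simp only [hz2]
          split_ifs with hjJ
          · refine hz j (fun h => hj ?_)
            rw [Finset.mem_sdiff] at h ⊢
            exact ⟨hjJ, h.2⟩
          · rfl)
        have hsum : ∑ j, z j ^ 2 = ∑ j, z1 j ^ 2 + ∑ j, z2 j ^ 2 := by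
          rw [← Finset.sum_add_distrib]
          refine Finset.sum_congr rfl (fun j _ => ?_)
          simp only [hz1, hz2]; split_ifs <;> simp
        have hN1 : (0:ℝ) < N + 1 := by positivity
        have hpt : ∀ i, (∑ j, B i j * z j) ^ 2 ≤
            ((N + 2) / (N + 1)) * (∑ j, B i j * z1 j) ^ 2 + (N + 2) * (∑ j, B i j * z2 j) ^ 2 := by
          intro i
          have hs : ∑ j, B i j * z j = ∑ j, B i j * z1 j + ∑ j, B i j * z2 j := by
            rw [← Finset.sum_add_distrib]
            exact Finset.sum_congr rfl (fun j _ => by rw [hz12 j]; ring)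
          rw [hs]
          set u := ∑ j, B i j * z1 j
          set v := ∑ j, B i j * z2 j
          have h3 : ((N:ℝ) + 2) / (N + 1) * u ^ 2 + (N + 2) * v ^ 2 - (u + v) ^ 2
              = (u - (N + 1) * v) ^ 2 / (N + 1) := by
            field_simp; ring
          have h4 : 0 ≤ (u - (N + 1) * v) ^ 2 / (N + 1) := by positivity
          linarith
        calc ∑ i, (∑ j, B i j * z j) ^ 2 ≤ ∑ i, (((N + 2) / (N + 1)) * (∑ j, B i j * z1 j) ^ 2
              + (N + 2) * (∑ j, B i j * z2 j) ^ 2) := Finset.sum_le_sum (fun i _ => hpt i)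
          _ = ((N + 2) / (N + 1)) * ∑ i, (∑ j, B i j * z1 j) ^ 2
              + (N + 2) * ∑ i, (∑ j, B i j * z2 j) ^ 2 := by
              rw [Finset.sum_add_distrib, Finset.mul_sum, Finset.mul_sum]
          _ ≤ ((N + 2) / (N + 1)) * ((N + 1) * (C * M) * ∑ j, z1 j ^ 2)
              + (N + 2) * (C * M * ∑ j, z2 j ^ 2) := by
              gcongr
          _ = ((N + 1 : ℕ) + 1) * (C * M) * ∑ j, z j ^ 2 := by
              rw [hsum]; push_cast; field_simp; ring

theorem t_ITR (hSEL : S_SEL) : S_ITR := by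
  obtain ⟨C, hC, H⟩ := hSEL
  refine ⟨5 * C, by positivity, ?_⟩
  intro n ε hn hε hε6 B U M hM hx
  set L := Real.log (1 / ε) with hL
  have hL1 : 1 ≤ L := by
    rw [hL, Real.le_log_iff_exp_le (by positivity)]
    have h1 : Real.exp 1 < 2.7182818286 := Real.exp_one_lt_d9
    have h2 : (6 : ℝ) ≤ 1 / ε := by
      rw [le_div_iff₀ hε]; linarith
    linarith
  obtain ⟨J, hJU, hJc, hJ⟩ := ITR_step hC H hn hε B U hM hx (⌈L⌉₊ + 1)
  have hn' : (0:ℝ) < n := by exact_mod_cast (by omega : 0 < n)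
  have hceil : L ≤ ⌈L⌉₊ := Nat.le_ceil L
  have hceil2 : (⌈L⌉₊ : ℝ) < L + 1 := Nat.ceil_lt_add_one (by linarith)
  refine ⟨J, hJU, ?_, fun z hz => (hJ z hz).trans ?_⟩
  · refine hJc.trans (max_le le_rfl ?_)
    have h4 : 1 / ε ≤ 4 ^ ⌈L⌉₊ := by
      have h5 : Real.exp L = 1 / ε := by rw [hL]; exact Real.exp_log (by positivity)
      rw [← h5]
      calc Real.exp L ≤ Real.exp (⌈L⌉₊ * 1) := Real.exp_le_exp.mpr (by linarith)
        _ = Real.exp 1 ^ ⌈L⌉₊ := by rw [Real.exp_nat_mul]
        _ ≤ 4 ^ ⌈L⌉₊ := by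
            refine pow_le_pow_left₀ (Real.exp_pos _).le ?_ _
            linarith [Real.exp_one_lt_d9]
    rw [div_le_div_iff₀ (by positivity) (by norm_num), pow_succ]
    rw [div_le_iff₀ hε] at h4
    nlinarith
  · have hS : 0 ≤ ∑ j, z j ^ 2 := Finset.sum_nonneg (fun j _ => sq_nonneg _)
    refine mul_le_mul_of_nonneg_right ?_ hS
    push_cast
    have hCM : 0 ≤ C * M := mul_nonneg hC.le hM
    calc ((⌈L⌉₊ : ℝ) + 1 + 1) * (C * M) ≤ (5 * L) * (C * M) :=
          mul_le_mul_of_nonneg_right (by linarith) hCM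
      _ = 5 * C * M * L := by ring

end Pool.Agent.H83.NR
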