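import Mathlib
import Pool.Agent.H99.NR.Stm

set_option autoImplicit false

open MeasureTheory ProbabilityTheory
open Pool.Agent.H99.NR

namespace Pool.Agent.H83.NR

theorem t_SCH : S_SCH := by
  intro n B a b ha hb h1 h2 z
  have key : ∀ i, (∑ j, B i j * z j) ^ 2 ≤ a * ∑ j, |B i j| * z j ^ 2 := by
    intro i
    have h := Finset.sum_sq_le_sum_mul_sum_of_sq_le_mul Finset.univ
      (r := fun j => B i j * z j) (f := fun j => |B i j|) (g := fun j => |B i j| * z j ^ 2)
      (fun j _ => abs_nonneg _) (fun j _ => by positivity)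
      (fun j _ => le_of_eq (by rw [mul_pow, ← sq_abs (B i j)]; ring))
    refine h.trans (mul_le_mul_of_nonneg_right (h1 i) ?_)
    exact Finset.sum_nonneg (fun j _ => by positivity)
  calc ∑ i, (∑ j, B i j * z j) ^ 2 ≤ ∑ i, a * ∑ j, |B i j| * z j ^ 2 :=
        Finset.sum_le_sum (fun i _ => key i)
    _ = a * ∑ j, (∑ i, |B i j|) * z j ^ 2 := by
        rw [← Finset.mul_sum, Finset.sum_comm]
        congr 1
        exact Finset.sum_congr rfl (fun j _ => by rw [Finset.sum_mul])
    _ ≤ a * ∑ j, b * z j ^ 2 := by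
        refine mul_le_mul_of_nonneg_left (Finset.sum_le_sum (fun j _ => ?_)) ha
        exact mul_le_mul_of_nonneg_right (h2 j) (by positivity)
    _ = a * b * ∑ j, z j ^ 2 := by rw [← Finset.mul_sum]; ring

theorem t_ROW (h1 : S_ROW1) (h2 : S_ROW2) : S_ROW := by
  intro K hK
  obtain ⟨c1, C1, hc1, hC1, H1⟩ := h1 K hK
  obtain ⟨c2, C2, hc2, hC2, H2⟩ := h2 K hK
  refine ⟨min c1 c2, max C1 C2, lt_min hc1 hc2, lt_max_of_lt_left hC1, ?_⟩
  intro ε n κ ν hn hε hε6 hν hcut x hx s hs
  have hpos : (0:ℝ) ≤ sz x / n := by positivity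
  by_cases hs2 : (s : ℝ) ≤ 160000 * K ^ 2 * Real.log (1 / ε)
  · refine (H1 ε n κ ν hn hε hε6 hν hcut x hx s hs hs2).trans ?_
    refine mul_le_mul (mul_le_mul_of_nonneg_right (le_max_left _ _) hpos)
      (Real.exp_le_exp.mpr ?_) (Real.exp_pos _).le (mul_nonneg (hC1.le.trans (le_max_left _ _)) hpos)
    have : min c1 c2 * (s : ℝ) ^ 2 ≤ c1 * (s : ℝ) ^ 2 :=
      mul_le_mul_of_nonneg_right (min_le_left _ _) (by positivity)
    linarith
  · push Not at hs2
    refine (H2 ε n κ ν hn hε hε6 hν hcut x hx s hs hs2).trans ?_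
    refine mul_le_mul (mul_le_mul_of_nonneg_right (le_max_right _ _) hpos)
      (Real.exp_le_exp.mpr ?_) (Real.exp_pos _).le (mul_nonneg (hC1.le.trans (le_max_left _ _)) hpos)
    have : min c1 c2 * (s : ℝ) ^ 2 ≤ c2 * (s : ℝ) ^ 2 :=
      mul_le_mul_of_nonneg_right (min_le_right _ _) (by positivity)
    linarith

theorem t_TRP : S_TRP := by
  intro n ν hν
  symm
  have hrow : IsProbabilityMeasure (rowLaw n ν) := by unfold rowLaw; infer_instance
  unfold matLaw
  have hT : Measurable (fun (a : Fin n → Fin n → ℝ) (i j : Fin n) => a j i) := by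
    refine measurable_pi_lambda _ (fun i => measurable_pi_lambda _ (fun j => ?_))
    exact (measurable_pi_apply i).comp (measurable_pi_apply j)
  refine Measure.pi_eq_generateFrom
    (C := fun _ => Set.pi Set.univ '' Set.pi Set.univ fun _ : Fin n => {s : Set ℝ | MeasurableSet s})
    (fun i => generateFrom_pi) (fun i => isPiSystem_pi)
    (fun i => ⟨fun _ => Set.univ, fun _ => ?_, fun _ => measure_lt_top _ _, Set.iUnion_const _⟩) ?_
  · exact ⟨fun _ => Set.univ, by simp, by simp⟩
  · intro s hs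
    choose t ht hts using hs
    have hm : ∀ i j, MeasurableSet (t i j) := fun i j => ht i j (Set.mem_univ _)
    have hsm : ∀ i, MeasurableSet (s i) := fun i => by
      rw [← hts i]; exact MeasurableSet.univ_pi (fun j => hm i j)
    rw [Measure.map_apply hT (MeasurableSet.univ_pi hsm)]
    have hpre : (fun (a : Fin n → Fin n → ℝ) (i j : Fin n) => a j i) ⁻¹' (Set.pi Set.univ s)
        = Set.pi Set.univ (fun j => Set.pi Set.univ (fun i => t i j)) := by
      ext a
      simp only [Set.mem_preimage, Set.mem_pi, Set.mem_univ, forall_true_left, ← hts]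
      exact forall_comm
    rw [hpre, Measure.pi_pi]
    have h1 : ∀ j : Fin n, rowLaw n ν (Set.pi Set.univ (fun i => t i j)) = ∏ i, ν (t i j) := by
      intro j; unfold rowLaw; exact Measure.pi_pi _ _
    have h2 : ∀ i : Fin n, rowLaw n ν (s i) = ∏ j, ν (t i j) := by
      intro i; rw [← hts i]; unfold rowLaw; exact Measure.pi_pi _ _
    simp only [h1, h2]
    exact Finset.prod_comm

end Pool.Agent.H83.NR
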